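import Mathlib

/-!
# Gaps between consecutive primes from sets of 45 integers, at every scale

`EFe C` is the theorem on 45 linear forms (`Pool.Agent.Y876.FF.trace_int` with `lh45`), with a count
`x / (log x) ^ C` at EVERY large `x`. `core`: for every large `y` one of the differences of 45 integers in
one residue class modulo `q`, which miss a class modulo every prime that does not divide `q`, is a gap
between at least `y / (log y) ^ (C + 1)` consecutive primes up to `y`. After helper245's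
`Pool.Agent.Helper245.G45.Core` (arbitrarily large `y`). helper60.
-/

set_option autoImplicit false

open Filter Finset

namespace Pool.Agent.V60.EV

/-- the theorem on forty-five linear forms, at every scale -/
def EFe (C : ℕ) : Prop := ∀ (ι : Type) [Fintype ι] (a b : ι → ℤ),
    (∀ i, 0 < a i) → (∀ i j, i ≠ j → a i * b j ≠ a j * b i) → ∀ S : Finset ι, 45 ≤ S.card →
    (∀ p : ℕ, p.Prime → ∃ n : ℕ, ∀ i ∈ S, ¬ (p : ℤ) ∣ a i * n + b i) →
    ∀ᶠ x : ℝ in atTop, ∃ T : Finset ι, T ⊆ S ∧ 2 ≤ T.card ∧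
      x / Real.log x ^ C ≤ (Set.ncard {n : ℕ | (n : ℝ) ≤ x ∧
        ∀ i, (a i * (n : ℤ) + b i).natAbs.Prime ↔ i ∈ T} : ℝ)

/-- the elementary lemma on the change of variable -/
def LS : Prop := ∀ (ν w : ℝ), 0 ≤ ν → 1 ≤ w → ∀ C : ℕ,
    ∀ᶠ x : ℝ in atTop, x / Real.log x ^ (C + 1) ≤ ((x - ν) / w) / Real.log ((x - ν) / w) ^ C

/-- the primes `p ≡ r (mod q)` for which `p + d ≤ x` is the next prime -/
def gapPr (q : ℕ) (r : ℤ) (d : ℕ) (x : ℝ) : Set ℕ :=
  {p : ℕ | ((p + d : ℕ) : ℝ) ≤ x ∧ (p : ℤ) ≡ r [ZMOD q] ∧ p.Prime ∧ (p + d).Prime ∧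
    ∀ m : ℕ, p < m → m < p + d → ¬ m.Prime}

theorem gapPr_finite (q : ℕ) (r : ℤ) (d : ℕ) (x : ℝ) : (gapPr q r d x).Finite := by
  apply (Set.finite_Iic ⌊x⌋₊).subset
  rintro p ⟨hp, -, hpp, -⟩
  rw [Set.mem_Iic]
  apply Nat.le_floor
  refine le_trans ?_ hp
  push_cast
  have : (0 : ℝ) ≤ (d : ℝ) := Nat.cast_nonneg _
  linarith

theorem core_pos {C : ℕ} (hEF : EFe C) (hLS : LS) (q : ℕ) (hq : 1 ≤ q) (r : ℤ)
    (hr : IsCoprime r (q : ℤ)) (A : Finset ℤ) (hA : 45 ≤ A.card) (hpos : ∀ a ∈ A, 0 < a)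
    (hres : ∀ a ∈ A, a ≡ r [ZMOD q])
    (hadm : ∀ p : ℕ, p.Prime → ¬ p ∣ q → ∃ c : ℤ, ∀ a ∈ A, ¬ a ≡ c [ZMOD p]) :
    ∀ᶠ y : ℝ in atTop, ∃ a ∈ A, ∃ b ∈ A, a < b ∧
      y / Real.log y ^ (C + 1) ≤ ((gapPr q r (b - a).toNat y).ncard : ℝ) := by
  classical
  have hne : A.Nonempty := Finset.card_pos.1 (by omega)
  set m := A.min' hne with hm
  set M := A.max' hne with hM
  have hqz : (0 : ℤ) < q := by exact_mod_cast hq
  have hmpos : 0 < m := hpos _ (A.min'_mem hne)
  let ι := ↥(Finset.Icc m M)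
  let S : Finset ι := Finset.univ.filter (fun i : ι => (i : ℤ) ∈ A)
  have hmemI : ∀ a ∈ A, a ∈ Finset.Icc m M := fun a ha =>
    Finset.mem_Icc.2 ⟨A.min'_le a ha, A.le_max' a ha⟩
  have hScard : S.card = A.card := by
    refine Finset.card_bij (fun i _ => (i : ℤ)) ?_ ?_ ?_
    · intro i hi; exact (Finset.mem_filter.1 hi).2
    · intro i _ j _ hij; exact Subtype.ext hij
    · intro a ha
      exact ⟨⟨a, hmemI a ha⟩, Finset.mem_filter.2 ⟨Finset.mem_univ _, ha⟩, rfl⟩
  have hev := hEF ι (fun _ => (q : ℤ)) (fun i => (i : ℤ)) (fun _ => hqz)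
    (by
      intro i j hij h
      apply hij
      have := mul_left_cancel₀ hqz.ne' h
      exact Subtype.ext this.symm)
    S (by rw [hScard]; exact hA)
    (by
      intro p hp
      by_cases hpq : p ∣ q
      · refine ⟨0, fun i hi hd => ?_⟩
        have hiA : (i : ℤ) ∈ A := (Finset.mem_filter.1 hi).2
        have h1 : (p : ℤ) ∣ (i : ℤ) := by simpa using hd
        have h2 : (p : ℤ) ∣ (i : ℤ) - r := by
          have h3 : (q : ℤ) ∣ (i : ℤ) - r := (hres _ hiA).symm.dvd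
          exact (Int.natCast_dvd_natCast.2 hpq).trans h3
        have h3 : (p : ℤ) ∣ r := by
          have := dvd_sub h1 h2
          simpa using this
        have h4 : IsUnit (p : ℤ) := hr.isUnit_of_dvd' h3 (Int.natCast_dvd_natCast.2 hpq)
        have h5 := Int.isUnit_iff.1 h4
        have h6 := hp.two_le
        rcases h5 with h5 | h5 <;> omega
      · obtain ⟨c, hc⟩ := hadm p hp hpq
        have hcop : IsCoprime (q : ℤ) (p : ℤ) := by
          rw [Nat.isCoprime_iff_coprime]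
          exact ((Nat.Prime.coprime_iff_not_dvd hp).2 hpq).symm
        obtain ⟨u, v, huv⟩ := hcop
        have hp0 : (p : ℤ) ≠ 0 := by exact_mod_cast hp.ne_zero
        -- n ≡ -c u mod p
        refine ⟨((-c * u) % p).toNat, fun i hi hd => ?_⟩
        have hiA : (i : ℤ) ∈ A := (Finset.mem_filter.1 hi).2
        rw [Int.toNat_of_nonneg (Int.emod_nonneg _ hp0)] at hd
        apply hc _ hiA
        have h1 : (p : ℤ) ∣ (-c * u) - (-c * u) % p := Int.dvd_self_sub_emod
        obtain ⟨k, hk⟩ := hd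
        obtain ⟨l, hl⟩ := h1
        refine (Int.modEq_iff_dvd.2 ?_)
        refine ⟨v * c - k - l * q, ?_⟩
        have h2 : (-c * u) % p = -c * u - p * l := by linarith
        rw [h2] at hk
        have h3 : c = c * (u * q + v * p) := by rw [huv, mul_one]
        nlinarith [hk, h3])
  have hq1 : (1 : ℝ) ≤ (q : ℝ) := by exact_mod_cast hq
  have hq0 : (0 : ℝ) < (q : ℝ) := by linarith
  have hMm : m ≤ M := A.min'_le _ (A.max'_mem hne)
  have hMpos : 0 < M := by omega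
  have hMr : (0 : ℝ) ≤ (M : ℝ) := by exact_mod_cast hMpos.le
  have htend : Tendsto (fun y : ℝ => (y - (M : ℝ)) / q) atTop atTop :=
    (tendsto_atTop_add_const_right _ (-(M : ℝ)) tendsto_id).atTop_div_const hq0
  filter_upwards [htend.eventually hev, hLS (M : ℝ) q hMr hq1 C] with y hy hLy
  obtain ⟨T, hTS, hTc, hT⟩ := hy
  -- a = min T, b = next element
  have hTne : T.Nonempty := Finset.card_pos.1 (by omega)
  set t₀ := T.min' hTne with ht₀
  have hT2 : (T.erase t₀).Nonempty := by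
    apply Finset.card_pos.1
    rw [Finset.card_erase_of_mem (T.min'_mem hTne)]
    omega
  set t₁ := (T.erase t₀).min' hT2 with ht₁
  have ht₀T : t₀ ∈ T := T.min'_mem hTne
  have ht₁T : t₁ ∈ T := Finset.mem_of_mem_erase ((T.erase t₀).min'_mem hT2)
  have hne01 : t₁ ≠ t₀ := Finset.ne_of_mem_erase ((T.erase t₀).min'_mem hT2)
  have hle01 : t₀ ≤ t₁ := T.min'_le _ ht₁T
  have hlt01 : (t₀ : ℤ) < (t₁ : ℤ) := by
    have h1 : (t₀ : ℤ) ≤ (t₁ : ℤ) := hle01
    have h2 : (t₀ : ℤ) ≠ (t₁ : ℤ) := fun h => hne01 (Subtype.ext h.symm)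
    omega
  have hbetween : ∀ i : ι, (t₀ : ℤ) < i → (i : ℤ) < t₁ → i ∉ T := by
    intro i h1 h2 hiT
    have h3 : i ∈ T.erase t₀ := Finset.mem_erase.2 ⟨fun h => by rw [h] at h1; omega, hiT⟩
    have h4 : t₁ ≤ i := (T.erase t₀).min'_le _ h3
    have h5 : (t₁ : ℤ) ≤ i := h4
    omega
  have ht₀A : (t₀ : ℤ) ∈ A := (Finset.mem_filter.1 (hTS ht₀T)).2
  have ht₁A : (t₁ : ℤ) ∈ A := (Finset.mem_filter.1 (hTS ht₁T)).2
  refine ⟨t₀, ht₀A, t₁, ht₁A, hlt01, ?_⟩
  have ht₀pos : (0 : ℤ) < t₀ := hpos _ ht₀A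
  have ht₁M : (t₁ : ℤ) ≤ M := (Finset.mem_Icc.1 t₁.2).2
  set s : ℕ := (t₀ : ℤ).toNat with hs
  have hsz : (s : ℤ) = t₀ := Int.toNat_of_nonneg ht₀pos.le
  set d : ℕ := ((t₁ : ℤ) - t₀).toNat with hd
  have hdz : (d : ℤ) = t₁ - t₀ := Int.toNat_of_nonneg (by omega)
  refine hLy.trans (hT.trans ?_)
  refine Nat.cast_le.2 ?_
  refine Set.ncard_le_ncard_of_injOn (fun n => q * n + s) ?_ ?_ (gapPr_finite _ _ _ _)
  · rintro n ⟨hn1, hn2⟩
    have hval : ∀ i : ι, (((q : ℤ) * (n : ℤ) + (i : ℤ)).natAbs : ℤ) = (q : ℤ) * (n : ℤ) + (i : ℤ) := by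
      intro i
      apply Int.natAbs_of_nonneg
      have h1 := (Finset.mem_Icc.1 i.2).1
      have h2 : (0 : ℤ) ≤ (q : ℤ) * n := by positivity
      omega
    have hv0 : ((q : ℤ) * (n : ℤ) + (t₀ : ℤ)).natAbs = q * n + s := by
      have h1 := hval t₀
      rw [← hsz] at h1 ⊢
      exact_mod_cast h1
    have hv1 : ((q : ℤ) * (n : ℤ) + (t₁ : ℤ)).natAbs = q * n + s + d := by
      have h1 := hval t₁
      apply Nat.cast_injective (R := ℤ)
      rw [h1]
      push_cast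
      rw [hsz, hdz]
      ring
    have hp : (q * n + s).Prime := by rw [← hv0]; exact (hn2 t₀).2 ht₀T
    have hp' : (q * n + s + d).Prime := by rw [← hv1]; exact (hn2 t₁).2 ht₁T
    refine ⟨?_, ?_, hp, hp', ?_⟩
    · have h1 : ((q * n + s + d : ℕ) : ℝ) = (q : ℝ) * n + ((t₁ : ℤ) : ℝ) := by
        have h2 : (((q * n + s + d : ℕ)) : ℤ) = (q : ℤ) * n + t₁ := by
          push_cast; rw [hsz, hdz]; ring
        exact_mod_cast h2
      rw [h1]
      rw [le_div_iff₀ hq0] at hn1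
      have h3 : ((t₁ : ℤ) : ℝ) ≤ (M : ℝ) := by exact_mod_cast ht₁M
      linarith
    · have h1 : ((q * n + s : ℕ) : ℤ) = (q : ℤ) * n + t₀ := by push_cast; rw [hsz]
      show ((q * n + s : ℕ) : ℤ) ≡ r [ZMOD q]
      rw [h1]
      have h2 : (q : ℤ) * n + t₀ ≡ 0 + r [ZMOD q] :=
        Int.ModEq.add (Int.modEq_zero_iff_dvd.2 (Dvd.intro _ rfl)) (hres _ ht₀A)
      rwa [zero_add] at h2
    · intro w hw1 hw2 hw
      have hw1' : q * n + s < w := hw1
      have hw2' : w < q * n + s + d := hw2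
      have hw1z : (q : ℤ) * n + t₀ < w := by
        have : ((q * n + s : ℕ) : ℤ) < w := by exact_mod_cast hw1'
        push_cast at this; rw [hsz] at this; exact this
      have hw2z : (w : ℤ) < (q : ℤ) * n + t₁ := by
        have : (w : ℤ) < ((q * n + s + d : ℕ) : ℤ) := by exact_mod_cast hw2'
        push_cast at this; rw [hsz, hdz] at this; linarith
      have h3 : (t₀ : ℤ) < (w : ℤ) - q * n := by linarith
      have h4 : (w : ℤ) - q * n < t₁ := by linarith
      have h5 : (w : ℤ) - q * n ∈ Finset.Icc m M := by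
        rw [Finset.mem_Icc]
        have h6 := (Finset.mem_Icc.1 t₀.2).1
        have h7 := (Finset.mem_Icc.1 t₁.2).2
        constructor <;> linarith
      have h6 := hbetween ⟨_, h5⟩ h3 h4
      apply h6
      rw [← hn2]
      have h7 : ((q : ℤ) * (n : ℤ) + ((w : ℤ) - q * n)).natAbs = w := by
        have : (q : ℤ) * (n : ℤ) + ((w : ℤ) - q * n) = w := by ring
        rw [this, Int.natAbs_natCast]
      show (((q : ℤ) * (n : ℤ) + ((w : ℤ) - q * n)).natAbs).Prime
      rw [h7]; exact hw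
  · rintro n ⟨hn1, hn2⟩ n' ⟨hn1', hn2'⟩ heq
    have h4 : q * n = q * n' := by
      have : q * n + s = q * n' + s := heq
      omega
    exact Nat.eq_of_mul_eq_mul_left hq h4

/-- **Core.** 45 integers in one residue class `r` modulo `q`, coprime to `q`, missing a class modulo every
prime not dividing `q`. -/
theorem core {C : ℕ} (hEF : EFe C) (hLS : LS) (q : ℕ) (hq : 1 ≤ q) (r : ℤ)
    (hr : IsCoprime r (q : ℤ)) (A : Finset ℤ) (hA : 45 ≤ A.card) (r' : ℤ)
    (hres : ∀ a ∈ A, a ≡ r' [ZMOD q])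
    (hadm : ∀ p : ℕ, p.Prime → ¬ p ∣ q → ∃ c : ℤ, ∀ a ∈ A, ¬ a ≡ c [ZMOD p]) :
    ∀ᶠ y : ℝ in atTop, ∃ a ∈ A, ∃ b ∈ A, a < b ∧
      y / Real.log y ^ (C + 1) ≤ ((gapPr q r (b - a).toNat y).ncard : ℝ) := by
  classical
  have hne : A.Nonempty := Finset.card_pos.1 (by omega)
  have hqz : (0 : ℤ) < q := by exact_mod_cast hq
  -- shift by `w ≡ r - r'` modulo `q`, large
  set w : ℤ := (r - r') + q * (|r - r'| + |A.min' hne| + 1) with hw
  have hwmin : 0 < A.min' hne + w := by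
    have h1 : (1 : ℤ) ≤ q := hqz
    have h2 : |r - r'| + |A.min' hne| + 1 ≤ q * (|r - r'| + |A.min' hne| + 1) := by
      have h3 : 0 ≤ |r - r'| + |A.min' hne| + 1 := by positivity
      nlinarith
    have h4 := neg_abs_le (r - r')
    have h5 := neg_abs_le (A.min' hne)
    rw [hw]
    linarith
  have key := core_pos hEF hLS q hq r hr (A.image (· + w))
    (by rw [Finset.card_image_of_injective _ (add_left_injective w)]; exact hA)
    (by
      intro a ha
      obtain ⟨a', ha', rfl⟩ := Finset.mem_image.1 ha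
      have := A.min'_le a' ha'
      show 0 < a' + w
      linarith)
    (by
      intro a ha
      obtain ⟨a', ha', rfl⟩ := Finset.mem_image.1 ha
      have h1 : a' ≡ r' [ZMOD q] := hres a' ha'
      have h2 : w ≡ r - r' + 0 [ZMOD q] :=
        Int.ModEq.add_left _ (Int.modEq_zero_iff_dvd.2 (Dvd.intro _ rfl))
      have h3 := h1.add h2
      have h4 : r' + (r - r' + 0) = r := by ring
      rwa [h4] at h3)
    (by
      intro p hp hpq
      obtain ⟨c, hc⟩ := hadm p hp hpq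
      refine ⟨c + w, fun a ha h => ?_⟩
      obtain ⟨a', ha', rfl⟩ := Finset.mem_image.1 ha
      exact hc a' ha' (Int.ModEq.add_right_cancel' w h))
  filter_upwards [key] with y hy
  obtain ⟨a, ha, b, hb, hab, h⟩ := hy
  obtain ⟨a', ha', rfl⟩ := Finset.mem_image.1 ha
  obtain ⟨b', hb', rfl⟩ := Finset.mem_image.1 hb
  refine ⟨a', ha', b', hb', by linarith, ?_⟩
  have h1 : b' + w - (a' + w) = b' - a' := by ring
  rw [h1] at h
  exact h

end Pool.Agent.V60.EV
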