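import Pool.Agent.Helper245.G45.Apply
import Pool.Agent.V60.EV.Core

/-!
# Gaps between consecutive primes from sets of 45 integers, at every scale: windows

`mult_gap`: multiples of a number `N`; `set_gap`: arbitrary sets; `window`: from the primes up to `y` to the window
`(n + 4, Y]`, `Y ≥ (n + 4) (log (n + 4)) ^ B`. helper60.
-/

set_option autoImplicit false

open Filter Finset

namespace Pool.Agent.V60.EV

open Pool.Agent.Helper245.G45 (miss_of_lt drop_list left)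

/-- **Arbitrary sets.** -/
theorem set_gap {C : ℕ} (hEF : EFe C) (hLS : LS) (q : ℕ) (hq : 1 ≤ q) (r : ℤ)
    (hr : IsCoprime r (q : ℤ)) (S : Finset ℤ) (hS : ∀ a ∈ S, ∀ b ∈ S, a ≡ b [ZMOD q])
    (L : List ℕ) (hL : ∀ p ∈ L, p.Prime) (hLq : ∀ p : ℕ, p.Prime → p ≤ 43 → p ∣ q ∨ p ∈ L)
    (hcard : 45 ≤ left L S.card) :
    ∀ᶠ y : ℝ in atTop, ∃ a ∈ S, ∃ b ∈ S, a < b ∧
      y / Real.log y ^ (C + 1) ≤ ((gapPr q r (b - a).toNat y).ncard : ℝ) := by
  classical
  obtain ⟨S1, h1, h2, h3⟩ := drop_list L (fun p hp => (hL p hp).pos) S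
  obtain ⟨A, hA1, hA2⟩ := exists_subset_card_eq (hcard.trans h2)
  have hne : A.Nonempty := Finset.card_pos.1 (by omega)
  obtain ⟨a0, ha0⟩ := hne
  have key := core hEF hLS q hq r hr A hA2.ge a0
    (fun a ha => hS a (h1 (hA1 ha)) a0 (h1 (hA1 ha0)))
    (by
      intro p hp hpq
      rcases le_or_gt p 43 with h43 | h43
      · rcases hLq p hp h43 with h4 | h4
        · exact absurd h4 hpq
        · obtain ⟨c, hc⟩ := h3 p h4
          exact ⟨c, fun a ha => hc a (hA1 ha)⟩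
      · apply miss_of_lt
        have h5 : p ≠ 44 := by rintro rfl; exact absurd hp (by norm_num)
        have h6 : p ≠ 45 := by rintro rfl; exact absurd hp (by norm_num)
        omega)
  filter_upwards [key] with y hy
  obtain ⟨a, ha, b, hb, hab, h⟩ := hy
  exact ⟨a, h1 (hA1 ha), b, h1 (hA1 hb), hab, h⟩

/-- **Multiples.** `E` is a set of 45 natural numbers up to `K` which misses a class modulo every prime
`p ≤ 43` that does not divide `N`. -/
theorem mult_gap {C : ℕ} (hEF : EFe C) (hLS : LS) (N : ℕ) (hN : 1 ≤ N) (r : ℤ)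
    (hr : IsCoprime r (N : ℤ)) (E : Finset ℕ) (hE : 45 ≤ E.card) (K : ℕ) (hK : ∀ e ∈ E, e ≤ K)
    (hcls : ∀ p : ℕ, p.Prime → p ≤ 43 → p ∣ N ∨ ∃ c : ℕ, ∀ e ∈ E, ¬ e % p = c % p) :
    ∀ᶠ y : ℝ in atTop, ∃ k : ℕ, 1 ≤ k ∧ k ≤ K ∧
      y / Real.log y ^ (C + 1) ≤ ((gapPr N r (k * N) y).ncard : ℝ) := by
  classical
  obtain ⟨E', hE'1, hE'2⟩ := exists_subset_card_eq hE
  have hNz : (0 : ℤ) < N := by exact_mod_cast hN
  have hinj : Function.Injective (fun e : ℕ => (e : ℤ) * N) := by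
    intro e e' h
    have h1 := mul_right_cancel₀ hNz.ne' h
    exact_mod_cast h1
  have key := core hEF hLS N hN r hr (E'.image (fun e : ℕ => (e : ℤ) * N))
    (by rw [Finset.card_image_of_injective _ hinj]; omega) 0
    (by
      intro a ha
      obtain ⟨e, -, rfl⟩ := Finset.mem_image.1 ha
      exact Int.modEq_zero_iff_dvd.2 (Dvd.intro_left _ rfl))
    (by
      intro p hp hpN
      rcases le_or_gt p 43 with h43 | h43
      · rcases hcls p hp h43 with h4 | h4
        · exact absurd h4 hpN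
        · obtain ⟨c, hc⟩ := h4
          refine ⟨(c : ℤ) * N, fun a ha h5 => ?_⟩
          obtain ⟨e, he, rfl⟩ := Finset.mem_image.1 ha
          apply hc e (hE'1 he)
          have hcop : Int.gcd (p : ℤ) (N : ℤ) = 1 := by
            rw [Int.gcd_natCast_natCast]
            exact (Nat.Prime.coprime_iff_not_dvd hp).2 hpN
          have h6 : (e : ℤ) ≡ c [ZMOD p] := by
            have h7 := Int.modEq_iff_dvd.1 h5
            have h8 : (c : ℤ) * N - e * N = N * (c - e) := by ring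
            rw [h8] at h7
            exact Int.modEq_iff_dvd.2 ((Int.isCoprime_iff_gcd_eq_one.2 hcop).dvd_of_dvd_mul_left h7)
          exact (Int.natCast_modEq_iff).1 h6
      · have hlt : (E'.image (fun e : ℕ => (e : ℤ) * N)).card < p := by
          rw [Finset.card_image_of_injective _ hinj]
          have h5 : p ≠ 44 := by rintro rfl; exact absurd hp (by norm_num)
          have h6 : p ≠ 45 := by rintro rfl; exact absurd hp (by norm_num)
          omega
        exact miss_of_lt _ hlt)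
  filter_upwards [key] with y hy
  obtain ⟨a, ha, b, hb, hab, h⟩ := hy
  obtain ⟨e, he, rfl⟩ := Finset.mem_image.1 ha
  obtain ⟨f, hf, rfl⟩ := Finset.mem_image.1 hb
  have hef : e < f := by
    have h1 : (e : ℤ) < f := lt_of_mul_lt_mul_right hab hNz.le
    exact_mod_cast h1
  refine ⟨f - e, by omega, ?_, ?_⟩
  · have := hK f (hE'1 hf)
    omega
  · have h1 : ((f : ℤ) * N - e * N).toNat = (f - e) * N := by
      have h2 : ((f : ℤ) * N - e * N) = (((f - e) * N : ℕ) : ℤ) := by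
        push_cast [Nat.cast_sub hef.le]; ring
      rw [h2, Int.toNat_natCast]
    rw [h1] at h
    exact h

/-- the elementary comparison of the two forms of the lower bound for `Y` -/
theorem lower (B : ℕ) : ∀ᶠ u : ℝ in atTop, ∀ Y : ℝ, u * Real.log u ^ (B + 1) ≤ Y →
    u * Real.log Y ^ B ≤ Y ∧ u ≤ Y := by
  have h1 : ∀ᶠ Y : ℝ in atTop, ‖Real.log Y ^ (2 * B)‖ ≤ 1 * ‖id Y‖ :=
    (Real.isLittleO_pow_log_id_atTop (n := 2 * B)).bound one_pos
  obtain ⟨Y₀, hY₀⟩ := eventually_atTop.1 h1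
  filter_upwards [eventually_ge_atTop Y₀, eventually_ge_atTop (3 : ℝ),
    Real.tendsto_log_atTop.eventually_ge_atTop ((2 : ℝ) ^ B)] with u hu0 hu3 hlog Y hY
  have hlog1 : (1 : ℝ) ≤ Real.log u := (one_le_pow₀ (by norm_num)).trans hlog
  have huY : u ≤ Y := by
    refine le_trans ?_ hY
    exact le_mul_of_one_le_right (by linarith) (one_le_pow₀ hlog1)
  have hYpos : 0 < Y := by linarith
  have hlogY : 1 ≤ Real.log Y := hlog1.trans (Real.log_le_log (by linarith) huY)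
  refine ⟨?_, huY⟩
  rcases le_total Y (u ^ 2) with h | h
  · have h2 : Real.log Y ≤ 2 * Real.log u := by
      have := Real.log_le_log hYpos h
      rwa [Real.log_pow, Nat.cast_ofNat] at this
    refine le_trans ?_ hY
    apply mul_le_mul_of_nonneg_left _ (by linarith)
    calc Real.log Y ^ B ≤ (2 * Real.log u) ^ B := pow_le_pow_left₀ (by linarith) h2 _
      _ = 2 ^ B * Real.log u ^ B := mul_pow _ _ _
      _ ≤ Real.log u * Real.log u ^ B := mul_le_mul_of_nonneg_right hlog (by positivity)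
      _ = Real.log u ^ (B + 1) := by ring
  · have h2 := hY₀ Y (hu0.trans huY)
    rw [one_mul, id, Real.norm_of_nonneg (by positivity), Real.norm_of_nonneg hYpos.le] at h2
    have h3 : (Real.log Y ^ B) ^ 2 ≤ Y := by
      rw [← pow_mul, mul_comm B 2]; exact h2
    have h4 : (u * Real.log Y ^ B) ^ 2 ≤ Y ^ 2 := by
      calc (u * Real.log Y ^ B) ^ 2 = u ^ 2 * (Real.log Y ^ B) ^ 2 := mul_pow _ _ _
        _ ≤ Y * Y := mul_le_mul h h3 (by positivity) hYpos.le
        _ = Y ^ 2 := by ring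
    exact (sq_le_sq₀ (mul_nonneg (by linarith) (by positivity)) hYpos.le).1 h4

/-- the primes `p ≡ r (mod q)` of `(n + 4, Y]` for which `p + d ≤ Y` is the next prime -/
def winPr (q : ℕ) (r : ℤ) (d n Y : ℕ) : Set ℕ :=
  {p : ℕ | n + 4 < p ∧ p + d ≤ Y ∧ (p : ℤ) ≡ r [ZMOD q] ∧ p.Prime ∧ (p + d).Prime ∧
    ∀ m : ℕ, p < m → m < p + d → ¬ m.Prime}

theorem win_le (q : ℕ) (r : ℤ) (d n Y : ℕ) :
    ((gapPr q r d Y).ncard : ℝ) ≤ ((winPr q r d n Y).ncard : ℝ) + (n + 5) := by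
  have hfin : (winPr q r d n Y).Finite := by
    apply (Set.finite_Iic Y).subset
    rintro p ⟨-, hp, -⟩
    rw [Set.mem_Iic]
    omega
  have hsub : gapPr q r d Y ⊆ winPr q r d n Y ∪ ((range (n + 5) : Finset ℕ) : Set ℕ) := by
    rintro p ⟨h1, h2, h3, h4, h5⟩
    rcases lt_or_ge (n + 4) p with h6 | h6
    · left
      exact ⟨h6, by exact_mod_cast h1, h2, h3, h4, h5⟩
    · right
      rw [mem_coe, mem_range]
      omega
  have h1 := Set.ncard_le_ncard hsub (hfin.union (finite_toSet _))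
  have h2 := Set.ncard_union_le (winPr q r d n Y) ((range (n + 5) : Finset ℕ) : Set ℕ)
  rw [Set.ncard_coe_finset, card_range] at h2
  have h3 := h1.trans h2
  have h4 : ((gapPr q r d Y).ncard : ℝ) ≤ (((winPr q r d n Y).ncard + (n + 5) : ℕ) : ℝ) := by
    exact_mod_cast h3
  refine h4.trans (le_of_eq ?_)
  push_cast
  ring

/-- **Windows.** -/
theorem window {C : ℕ} {q : ℕ} {r : ℤ} {P : ℕ → Prop}
    (h : ∀ᶠ y : ℝ in atTop, ∃ d : ℕ, P d ∧ y / Real.log y ^ (C + 1) ≤ ((gapPr q r d y).ncard : ℝ)) :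
    ∃ n₀ : ℕ, ∀ n : ℕ, n₀ ≤ n → ∀ Y : ℕ, ((n : ℝ) + 4) * Real.log (n + 4) ^ (C + 3) ≤ Y →
      ∃ d : ℕ, P d ∧ (Y : ℝ) / Real.log Y ^ (C + 3) ≤ ((winPr q r d n Y).ncard : ℝ) := by
  obtain ⟨y₀, hy₀⟩ := eventually_atTop.1 h
  have htend : Tendsto (fun n : ℕ => (n : ℝ) + 4) atTop atTop :=
    tendsto_atTop_add_const_right _ _ tendsto_natCast_atTop_atTop
  have hev := htend.eventually ((lower (C + 2)).and ((eventually_ge_atTop (max y₀ 4)).and
    (Real.tendsto_log_atTop.eventually_ge_atTop (3 : ℝ))))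
  obtain ⟨n₀, hn₀⟩ := eventually_atTop.1 hev
  refine ⟨n₀, fun n hn Y hY => ?_⟩
  obtain ⟨h1, h2, h3⟩ := hn₀ n hn
  obtain ⟨h4, h5⟩ := h1 Y hY
  obtain ⟨d, hd, h6⟩ := hy₀ Y ((le_max_left _ _).trans (h2.trans h5))
  refine ⟨d, hd, ?_⟩
  have h7 := win_le q r d n Y
  have hY0 : (0 : ℝ) < Y := lt_of_lt_of_le (by positivity) h5
  have hL : (3 : ℝ) ≤ Real.log Y := h3.trans (Real.log_le_log (by positivity) h5)
  have hL0 : (0 : ℝ) < Real.log Y := by linarith
  obtain ⟨L, hLd⟩ : ∃ L : ℝ, L = Real.log Y := ⟨_, rfl⟩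
  rw [← hLd] at h4 h6 hL hL0 ⊢
  have hP1 : (0 : ℝ) < L ^ (C + 1) := by positivity
  have hP2 : (0 : ℝ) < L ^ (C + 2) := by positivity
  have hP3 : (0 : ℝ) < L ^ (C + 3) := by positivity
  -- n + 5 ≤ 2 (n + 4) ≤ 2 Y / L ^ (C + 2)
  have h8 : (n : ℝ) + 4 ≤ Y / L ^ (C + 2) := by rw [le_div_iff₀ hP2]; exact h4
  have h9 : (n : ℝ) + 5 ≤ 2 * (Y / L ^ (C + 2)) := by
    have : (0 : ℝ) ≤ n := Nat.cast_nonneg _
    linarith
  have h10 : (3 : ℝ) * (Y / L ^ (C + 2)) ≤ Y / L ^ (C + 1) := by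
    have e1 : Y / L ^ (C + 1) = L * (Y / L ^ (C + 2)) := by
      rw [pow_succ L (C + 1)]
      field_simp
    rw [e1]
    exact mul_le_mul_of_nonneg_right hL (by positivity)
  have h11 : Y / L ^ (C + 3) ≤ Y / L ^ (C + 2) := by
    apply div_le_div_of_nonneg_left hY0.le hP2
    exact pow_le_pow_right₀ (by linarith) (by omega)
  linarith

end Pool.Agent.V60.EV
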