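import Pool.Agent.Y876.FF.Fin
import Pool.Agent.V60.EV.Apply

/-!
# The theorem on 45 linear forms (starting library) at every scale, in the form used here
-/

set_option autoImplicit false

open Filter Finset

namespace Pool.Agent.V60.EV

theorem ef : EFe (Pool.Agent.Y876.FF.CC 45 + 3) := by
  intro ι _ a b ha hne S hS hloc
  exact Pool.Agent.Y876.FF.trace_int Pool.Agent.Y876.FF.lh45 a b ha hne S hS hloc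

theorem ls : LS := fun ν w hν hw C => Pool.Agent.Y876.HS.log_shift ν w hν hw C

/-- the exponent of the logarithm -/
def BB : ℕ := Pool.Agent.Y876.FF.CC 45 + 3 + 3

/-- **Multiples in windows.** -/
theorem mult_win (N : ℕ) (hN : 1 ≤ N) (r : ℤ) (hr : IsCoprime r (N : ℤ)) (E : Finset ℕ)
    (hE : 45 ≤ E.card) (K : ℕ) (hK : ∀ e ∈ E, e ≤ K)
    (hcls : ∀ p : ℕ, p.Prime → p ≤ 43 → p ∣ N ∨ ∃ c : ℕ, ∀ e ∈ E, ¬ e % p = c % p) :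
    ∃ n₀ : ℕ, ∀ n : ℕ, n₀ ≤ n → ∀ Y : ℕ, ((n : ℝ) + 4) * Real.log (n + 4) ^ BB ≤ Y →
      ∃ k : ℕ, 1 ≤ k ∧ k ≤ K ∧
        (Y : ℝ) / Real.log Y ^ BB ≤ ((winPr N r (k * N) n Y).ncard : ℝ) := by
  have h := mult_gap ef ls N hN r hr E hE K hK hcls
  have h1 : ∀ᶠ y : ℝ in atTop, ∃ d : ℕ, (∃ k : ℕ, d = k * N ∧ 1 ≤ k ∧ k ≤ K) ∧
      y / Real.log y ^ (Pool.Agent.Y876.FF.CC 45 + 3 + 1) ≤ ((gapPr N r d y).ncard : ℝ) := by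
    filter_upwards [h] with y hy
    obtain ⟨k, hk1, hk2, hk⟩ := hy
    exact ⟨k * N, ⟨k, rfl, hk1, hk2⟩, hk⟩
  obtain ⟨n₀, hn₀⟩ := window h1
  refine ⟨n₀, fun n hn Y hY => ?_⟩
  obtain ⟨d, ⟨k, rfl, hk1, hk2⟩, hk⟩ := hn₀ n hn Y hY
  exact ⟨k, hk1, hk2, hk⟩

/-- **Sets in windows.** -/
theorem set_win (q : ℕ) (hq : 1 ≤ q) (r : ℤ) (hr : IsCoprime r (q : ℤ)) (S : Finset ℤ)
    (hS : ∀ a ∈ S, ∀ b ∈ S, a ≡ b [ZMOD q]) (L : List ℕ) (hL : ∀ p ∈ L, p.Prime)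
    (hLq : ∀ p : ℕ, p.Prime → p ≤ 43 → p ∣ q ∨ p ∈ L)
    (hcard : 45 ≤ Pool.Agent.Helper245.G45.left L S.card) :
    ∃ n₀ : ℕ, ∀ n : ℕ, n₀ ≤ n → ∀ Y : ℕ, ((n : ℝ) + 4) * Real.log (n + 4) ^ BB ≤ Y →
      ∃ a ∈ S, ∃ b ∈ S, a < b ∧
        (Y : ℝ) / Real.log Y ^ BB ≤ ((winPr q r (b - a).toNat n Y).ncard : ℝ) := by
  have h := set_gap ef ls q hq r hr S hS L hL hLq hcard
  have h1 : ∀ᶠ y : ℝ in atTop, ∃ d : ℕ, (∃ a ∈ S, ∃ b ∈ S, a < b ∧ d = (b - a).toNat) ∧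
      y / Real.log y ^ (Pool.Agent.Y876.FF.CC 45 + 3 + 1) ≤ ((gapPr q r d y).ncard : ℝ) := by
    filter_upwards [h] with y hy
    obtain ⟨a, ha, b, hb, hab, hk⟩ := hy
    exact ⟨(b - a).toNat, ⟨a, ha, b, hb, hab, rfl⟩, hk⟩
  obtain ⟨n₀, hn₀⟩ := window h1
  refine ⟨n₀, fun n hn Y hY => ?_⟩
  obtain ⟨d, ⟨a, ha, b, hb, hab, rfl⟩, hk⟩ := hn₀ n hn Y hY
  exact ⟨a, ha, b, hb, hab, hk⟩

end Pool.Agent.V60.EV
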